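import Pool.Agent.helper53.SP4.Spec

/-!
# Project SP4 (MP_561ff4_al), row S45
-/

set_option autoImplicit false

namespace Pool.Agent.SP4

open Pool.Agent.GS

theorem S45_finite (F : Type) [Field F] [Finite F] : Finite (SG F) := by
  have hf : Finite ((Fin 4 → F) → (Fin 4 → F)) := inferInstance
  refine Finite.of_injective (fun g : SG F => ((g : (Fin 4 → F) ≃ₗ[F] (Fin 4 → F)) : (Fin 4 → F) → (Fin 4 → F))) ?_
  intro g g' h
  apply Subtype.ext
  apply LinearEquiv.ext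
  intro w
  exact congrFun h w

theorem S45_pl (F : Type) [Field F] : Pl (Pi.single 0 1 : Fin 4 → F) (Pi.single 1 1) := by
  constructor
  · rw [LinearIndependent.pair_iff]
    intro s t h
    have h0 := congrFun h 0
    have h1 := congrFun h 1
    simp at h0 h1
    exact ⟨h0, h1⟩
  · simp [B]

theorem S45 (hS4B : S4B_stmt) (hS4W : S4W_stmt) (hS4G : S4G_stmt) (hS4Y : S4Y_stmt) (hS4Q : S4Q_stmt) : S45_stmt := by
  intro F _ _ _ x hx r hr hr2 hrF
  haveI : Finite (SG F) := S45_finite F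
  obtain ⟨t, n, a, b, hab, hC⟩ := hS4Y F x hx
  obtain ⟨a', b', hab', hQ⟩ := hS4Q F r hr hr2 hrF
  obtain ⟨-, -, -, -, hW⟩ := hS4W F
  obtain ⟨-, -, -, -, -, -, -, hconj, -, -, hcen, -⟩ := hS4B F
  obtain ⟨g0, hg0a, hg0b⟩ := hW a b _ _ hab (S45_pl F)
  obtain ⟨g1, hg1a, hg1b⟩ := hW a b _ _ hab hab'
  obtain ⟨hG1, hG2, -⟩ := hS4G (SG F) x r 4
  have hc0 : IsC2 (Pi.single 0 1) (Pi.single 1 1) (g0 * (x t * t⁻¹) ^ n * g0⁻¹) := by
    have := (hconj g0 _ a b).2.2 hC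
    rwa [hg0a, hg0b] at this
  have hc1 : IsC2 a' b' (g1 * (x t * t⁻¹) ^ n * g1⁻¹) := by
    have := (hconj g1 _ a b).2.2 hC
    rwa [hg1a, hg1b] at this
  have key : ∀ g : SG F, (MulAut.conj (g * (x t * t⁻¹) ^ n * g⁻¹) : MulAut (SG F)) =
      ((MulAut.conj g * x * (MulAut.conj g)⁻¹) * (MulAut.conj (g * t) * x * (MulAut.conj (g * t))⁻¹)⁻¹) ^ n := by
    intro g
    have h1 : (MulAut.conj g * x * (MulAut.conj g)⁻¹) * (MulAut.conj (g * t) * x * (MulAut.conj (g * t))⁻¹)⁻¹ =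
        MulAut.conj g * (MulAut.conj (x t * t⁻¹)) * (MulAut.conj g)⁻¹ := by
      rw [hG1 t, map_mul]
      group
    rw [h1, conj_pow, map_mul, map_mul, map_pow, map_inv]
  apply hG2 ![g0, g0 * t, g1, g1 * t] ((g0 * (x t * t⁻¹) ^ n * g0⁻¹) * (g1 * (x t * t⁻¹) ^ n * g1⁻¹)) (by norm_num)
  · rw [map_mul, key g0, key g1]
    have hm : ∀ i : Fin 4, MulAut.conj ((![g0, g0 * t, g1, g1 * t] : Fin 4 → SG F) i) * x *
        (MulAut.conj ((![g0, g0 * t, g1, g1 * t] : Fin 4 → SG F) i))⁻¹ ∈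
        Subgroup.closure (Set.range fun i : Fin 4 => MulAut.conj ((![g0, g0 * t, g1, g1 * t] : Fin 4 → SG F) i) * x *
          (MulAut.conj ((![g0, g0 * t, g1, g1 * t] : Fin 4 → SG F) i))⁻¹) :=
      fun i => Subgroup.subset_closure ⟨i, rfl⟩
    exact Subgroup.mul_mem _ (Subgroup.pow_mem _ (Subgroup.mul_mem _ (hm 0) (Subgroup.inv_mem _ (hm 1))) _)
      (Subgroup.pow_mem _ (Subgroup.mul_mem _ (hm 2) (Subgroup.inv_mem _ (hm 3))) _)
  · intro m hm
    apply hQ _ _ hc0 hc1 m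
    apply hcen
    intro g
    rw [← map_pow] at hm
    have h2 := DFunLike.congr_fun hm g
    rw [MulAut.conj_apply, MulAut.one_apply] at h2
    exact mul_inv_eq_iff_eq_mul.mp h2

end Pool.Agent.SP4
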